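import Mathlib

set_option autoImplicit false

namespace Pool.Agent.H219R2.EnergyLib

open Finset Matrix

section Gen

variable {n : Type*} [Fintype n] [DecidableEq n]

/-- quadratic form -/
def quad (M : Matrix n n ℝ) (v : n → ℝ) : ℝ := v ⬝ᵥ (M *ᵥ v)

lemma sum_quad (A : Matrix n n ℝ) (hA : A.IsHermitian) (M : Matrix n n ℝ) :
    ∑ i, quad M (⇑(hA.eigenvectorBasis i)) = M.trace := by
  have hU : (hA.eigenvectorUnitary : Matrix n n ℝ) * star (hA.eigenvectorUnitary : Matrix n n ℝ) = 1 :=
    Unitary.coe_mul_star_self _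
  have h1 : ∀ a b : n, ∑ i, (hA.eigenvectorBasis i) a * (hA.eigenvectorBasis i) b
      = if a = b then 1 else 0 := by
    intro a b
    have := congrFun (congrFun hU a) b
    rw [Matrix.mul_apply, Matrix.one_apply] at this
    simpa [Matrix.star_apply] using this
  calc ∑ i, quad M (⇑(hA.eigenvectorBasis i))
      = ∑ i, ∑ a, ∑ b, M a b * ((hA.eigenvectorBasis i) a * (hA.eigenvectorBasis i) b) := by
        refine Finset.sum_congr rfl fun i _ => ?_
        unfold quad
        simp only [dotProduct, mulVec]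
        refine Finset.sum_congr rfl fun a _ => ?_
        rw [Finset.mul_sum]
        refine Finset.sum_congr rfl fun b _ => ?_
        ring
    _ = ∑ a, ∑ b, M a b * ∑ i, ((hA.eigenvectorBasis i) a * (hA.eigenvectorBasis i) b) := by
        rw [Finset.sum_comm]
        refine Finset.sum_congr rfl fun a _ => ?_
        rw [Finset.sum_comm]
        refine Finset.sum_congr rfl fun b _ => ?_
        rw [Finset.mul_sum]
    _ = M.trace := by
        simp only [h1, Matrix.trace, Matrix.diag]
        refine Finset.sum_congr rfl fun a _ => ?_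
        simp

lemma norm_sq (A : Matrix n n ℝ) (hA : A.IsHermitian) (i : n) :
    (⇑(hA.eigenvectorBasis i)) ⬝ᵥ (⇑(hA.eigenvectorBasis i)) = (1:ℝ) := by
  have h := hA.eigenvectorBasis.orthonormal.1 i
  have h2 : ‖hA.eigenvectorBasis i‖ ^ 2 = 1 := by rw [h]; norm_num
  rw [EuclideanSpace.norm_sq_eq] at h2
  rw [dotProduct, ← h2]
  refine Finset.sum_congr rfl fun a _ => ?_
  rw [Real.norm_eq_abs, sq_abs]
  ring

lemma quad_eig (A : Matrix n n ℝ) (hA : A.IsHermitian) (i : n) :
    quad A (⇑(hA.eigenvectorBasis i)) = hA.eigenvalues i := by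
  unfold quad
  rw [hA.mulVec_eigenvectorBasis, dotProduct_smul, norm_sq]
  simp

lemma quad_pow (A : Matrix n n ℝ) (hA : A.IsHermitian) (i : n) (k : ℕ) :
    quad (A ^ k) (⇑(hA.eigenvectorBasis i)) = hA.eigenvalues i ^ k := by
  have h : ∀ k : ℕ, (A ^ k) *ᵥ (⇑(hA.eigenvectorBasis i)) =
      (hA.eigenvalues i ^ k) • (⇑(hA.eigenvectorBasis i) : n → ℝ) := by
    intro k
    induction k with
    | zero => simp
    | succ k ih =>
      rw [pow_succ, ← mulVec_mulVec, hA.mulVec_eigenvectorBasis, mulVec_smul, ih, smul_smul, pow_succ,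
        mul_comm]
  unfold quad
  rw [h, dotProduct_smul, norm_sq]
  simp

lemma energy_eq (A : Matrix n n ℝ) (hA : A.IsHermitian) :
    (A.charpoly.roots.map (fun x : ℝ => |x|)).sum = ∑ i, |hA.eigenvalues i| := by
  rw [hA.roots_charpoly_eq_eigenvalues, Multiset.map_map]
  rfl

lemma prod_eq (A : Matrix n n ℝ) (hA : A.IsHermitian) :
    (A.charpoly.roots.map (fun x : ℝ => |x|)).prod = |A.det| := by
  rw [hA.roots_charpoly_eq_eigenvalues, Multiset.map_map, hA.det_eq_prod_eigenvalues,
    Finset.abs_prod]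
  rfl

lemma energy_le (A Q : Matrix n n ℝ) (hA : A.IsHermitian)
    (h : ∀ v : n → ℝ, |quad A v| ≤ quad Q v) :
    (A.charpoly.roots.map (fun x : ℝ => |x|)).sum ≤ Q.trace := by
  rw [energy_eq A hA, ← sum_quad A hA Q]
  refine Finset.sum_le_sum fun i _ => ?_
  rw [← quad_eig A hA i]
  exact h _

lemma le_energy (A : Matrix n n ℝ) (hA : A.IsHermitian) :
    (6/7) * (A ^ 2).trace - (32/343) * (A ^ 4).trace ≤
      (A.charpoly.roots.map (fun x : ℝ => |x|)).sum := by
  rw [energy_eq A hA, ← sum_quad A hA (A ^ 2), ← sum_quad A hA (A ^ 4), Finset.mul_sum,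
    Finset.mul_sum, ← Finset.sum_sub_distrib]
  refine Finset.sum_le_sum fun i _ => ?_
  rw [quad_pow, quad_pow]
  set x := hA.eigenvalues i
  have h1 : x ^ 2 = |x| ^ 2 := (sq_abs x).symm
  have h2 : x ^ 4 = |x| ^ 4 := by
    have : x ^ 4 = (x ^ 2) ^ 2 := by ring
    rw [this, h1]; ring
  rw [h1, h2]
  have hx : 0 ≤ |x| := abs_nonneg x
  generalize |x| = y at hx
  have : y - (6 / 7 * y ^ 2 - 32 / 343 * y ^ 4) = (1/686) * y * (4 * y - 7) ^ 2 * (4 * y + 14) := by
    ring
  have h3 : 0 ≤ (1/686) * y * (4 * y - 7) ^ 2 * (4 * y + 14) := by positivity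
  linarith

end Gen

section Tree

variable {m : ℕ}

/-- A graph given by a parent function on `Fin (m+1)`. -/
def parG (p : Fin (m+1) → Fin (m+1)) : SimpleGraph (Fin (m+1)) where
  Adj u v := (v < u ∧ p u = v) ∨ (u < v ∧ p v = u)
  symm := ⟨fun _ _ h => Or.symm h⟩
  loopless := ⟨fun u h => by
    rcases h with h | h
    · exact lt_irrefl _ h.1
    · exact lt_irrefl _ h.1⟩

instance (p : Fin (m+1) → Fin (m+1)) : DecidableRel (parG p).Adj := fun u v =>
  inferInstanceAs (Decidable ((v < u ∧ p u = v) ∨ (u < v ∧ p v = u)))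

lemma parG_isTree (p : Fin (m+1) → Fin (m+1)) (hp : ∀ v, v ≠ 0 → p v < v) :
    (parG p).IsTree := by
  rw [SimpleGraph.isTree_iff_connected_and_card]
  constructor
  · have hreach : ∀ v : Fin (m+1), (parG p).Reachable v 0 := by
      intro v
      induction v using WellFoundedLT.induction with
      | ind v ih =>
        by_cases hv : v = 0
        · rw [hv]
        · have h1 := hp v hv
          have h2 : (parG p).Adj v (p v) := Or.inl ⟨h1, rfl⟩
          exact h2.reachable.trans (ih _ h1)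
    haveI : Nonempty (Fin (m+1)) := ⟨0⟩
    exact SimpleGraph.Connected.mk fun u v => (hreach u).trans (hreach v).symm
  · have h1 : (parG p).edgeSet = (fun v => s(v, p v)) '' {v | v ≠ 0} := by
      ext e
      induction e with
      | _ a b =>
        simp only [SimpleGraph.mem_edgeSet, Set.mem_image, Set.mem_setOf_eq, Sym2.eq_iff]
        constructor
        · rintro (h | h)
          · exact ⟨a, (Fin.zero_le b |>.trans_lt h.1).ne', Or.inl ⟨rfl, h.2⟩⟩
          · exact ⟨b, (Fin.zero_le a |>.trans_lt h.1).ne', Or.inr ⟨rfl, h.2⟩⟩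
        · rintro ⟨v, hv, h | h⟩
          · obtain ⟨rfl, rfl⟩ := h
            exact Or.inl ⟨hp _ hv, rfl⟩
          · obtain ⟨rfl, rfl⟩ := h
            exact Or.inr ⟨hp _ hv, rfl⟩
    have h2 : Set.InjOn (fun v => s(v, p v)) {v : Fin (m+1) | v ≠ 0} := by
      intro a ha b hb hab
      simp only [Sym2.eq_iff] at hab
      rcases hab with h | h
      · exact h.1
      · have h3 := hp a ha
        have h4 := hp b hb
        rw [h.2] at h3
        rw [← h.1] at h4
        exact absurd h3 (lt_asymm h4)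
    rw [Nat.card_coe_set_eq, h1, Set.ncard_image_of_injOn h2]
    have h3 : {v : Fin (m+1) | v ≠ 0} = ({0} : Set (Fin (m+1)))ᶜ := by ext; simp
    rw [h3, Set.ncard_compl]
    simp

end Tree

end Pool.Agent.H219R2.EnergyLib
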